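import Pool.Agent.Helper42_CG.Stmt

/-!
# CGP, module PIN: the probability that no pick crosses a core
-/

set_option autoImplicit false

namespace Pool.Agent.CGP.H97

open SimpleGraph Pool.Agent.LAG Pool.Agent.LLG

/-- `1 - x ≥ exp (- 8 x / 5)` on `[0, 3 / 5]`. -/
theorem exp_le (x : ℝ) (h0 : 0 ≤ x) (h1 : x ≤ 3 / 5) : Real.exp (-(8 / 5 * x)) ≤ 1 - x := by
  have hb : Real.exp (-(24 / 25 : ℝ)) ≤ 2 / 5 := by
    rw [Real.exp_neg]
    have : (5 / 2 : ℝ) ≤ Real.exp (24 / 25) := by
      have h := Real.sum_le_exp_of_nonneg (x := 24 / 25) (by norm_num) 5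
      refine le_trans ?_ h
      norm_num [Finset.sum_range_succ, Nat.factorial]
    calc (Real.exp (24 / 25))⁻¹ ≤ (5 / 2 : ℝ)⁻¹ := by
          apply inv_anti₀ (by norm_num) this
      _ = 2 / 5 := by norm_num
  have hc := convexOn_exp.2 (Set.mem_univ (0 : ℝ)) (Set.mem_univ (-(24 / 25) : ℝ))
    (show 0 ≤ 1 - 5 / 3 * x by linarith) (show 0 ≤ 5 / 3 * x by linarith) (by ring)
  simp only [smul_eq_mul, mul_zero, zero_add, Real.exp_zero, mul_one] at hc
  have e : 5 / 3 * x * -(24 / 25) = -(8 / 5 * x) := by ring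
  rw [e] at hc
  refine hc.trans ?_
  have := mul_le_mul_of_nonneg_left hb (show 0 ≤ 5 / 3 * x by linarith)
  linarith

section

variable {W : Type} [Fintype W] (Γ : SimpleGraph W) (C : Finset W)

open Classical in
/-- The number of neighbours on the other side. -/
noncomputable def cr (w : W) : ℕ :=
  ∑ v : W, if Γ.Adj w v ∧ ¬ (w ∈ C ↔ v ∈ C) then 1 else 0

open Classical in
theorem bd_sum : bd Γ (C : Set W) =
    ∑ w : W, ∑ v : W, if w ∈ C ∧ v ∉ C ∧ Γ.Adj w v then 1 else 0 := by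
  unfold bd
  rw [Set.ncard_eq_toFinset_card', Set.toFinset_ofPred, Finset.card_filter,
    Fintype.sum_prod_type]
  rfl

open Classical in
theorem sum_cr : ∑ w : W, cr Γ C w = 2 * bd Γ (C : Set W) := by
  have h1 : ∑ w : W, ∑ v : W, (if w ∈ C ∧ v ∉ C ∧ Γ.Adj w v then 1 else 0) =
      ∑ w : W, ∑ v : W, (if v ∈ C ∧ w ∉ C ∧ Γ.Adj v w then 1 else 0) := Finset.sum_comm
  rw [two_mul, bd_sum]
  nth_rw 2 [h1]
  rw [← Finset.sum_add_distrib]
  refine Finset.sum_congr rfl fun w _ => ?_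
  rw [← Finset.sum_add_distrib]
  refine Finset.sum_congr rfl fun v _ => ?_
  by_cases hw : w ∈ C <;> by_cases hv : v ∈ C <;> simp [hw, hv, Γ.adj_comm w v]

open Classical in
theorem cr_le {k : ℕ} (h : Core Γ k (C : Set W)) (w : W) : 5 * cr Γ C w ≤ 3 * k := by
  have key : ∀ P : W → Prop, {v | Γ.Adj w v ∧ P v}.ncard =
      ∑ v : W, if Γ.Adj w v ∧ P v then 1 else 0 := fun P => by
    rw [Set.ncard_eq_toFinset_card', Set.toFinset_ofPred, Finset.card_filter]
  by_cases hw : w ∈ C
  · have := h.1 w (by simpa using hw)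
    rw [key] at this
    refine le_trans (Nat.mul_le_mul_left 5 (Finset.sum_le_sum fun v _ => ?_)) this
    by_cases hv : v ∈ C <;> simp [hw, hv]
  · have := h.2 w (by simpa using hw)
    rw [key] at this
    refine le_trans (Nat.mul_le_mul_left 5 (Finset.sum_le_sum fun v _ => ?_)) this
    by_cases hv : v ∈ C <;> simp [hw, hv]

open Classical in
theorem cr_eq {k : ℕ} {nb : W → Fin k → W} (hn : Enum Γ nb) (w : W) :
    (Finset.univ.filter fun i : Fin k => (w ∈ (C : Set W) ↔ nb w i ∈ (C : Set W))).card +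
      cr Γ C w = k := by
  have h1 : cr Γ C w = (Finset.univ.filter fun i : Fin k =>
      ¬ (w ∈ (C : Set W) ↔ nb w i ∈ (C : Set W))).card := by
    unfold cr
    rw [← Finset.card_filter, ← Finset.card_image_of_injective _ (hn.1 w)]
    congr 1
    ext v
    simp only [Finset.mem_filter, Finset.mem_univ, true_and, Finset.mem_image, Finset.mem_coe]
    constructor
    · rintro ⟨ha, hb⟩
      obtain ⟨i, hi⟩ := (hn.2 w v).1 ha
      exact ⟨i, by rw [hi]; exact hb, hi⟩
    · rintro ⟨i, hi, rfl⟩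
      exact ⟨(hn.2 w _).2 ⟨i, rfl⟩, hi⟩
  rw [h1, Finset.card_filter_add_card_filter_not]
  simp

end

/-- PIN: with the stated probability no pick crosses the core. -/
theorem pin : PinStmt := by
  classical
  intro W _ _ Γ k s nb hk hn C hC
  have hk0 : (0 : ℝ) < k := by exact_mod_cast hk
  set good : W → Finset (Fin k) := fun w =>
    Finset.univ.filter fun i : Fin k => (w ∈ (C : Set W) ↔ nb w i ∈ (C : Set W)) with hg
  have e1 : insd s nb (C : Set W) =
      Fintype.piFinset fun w => Fintype.piFinset fun _ : Fin s => good w := by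
    ext p
    simp [insd, Insd, hg, Fintype.mem_piFinset]
  have e2 : ((insd s nb (C : Set W)).card : ℝ) = ∏ w : W, ((good w).card : ℝ) ^ s := by
    rw [e1, Fintype.card_piFinset]
    push_cast
    refine Finset.prod_congr rfl fun w _ => ?_
    rw [Fintype.card_piFinset]
    simp
  have e3 : (Fintype.card (W → Fin s → Fin k) : ℝ) = ∏ _w : W, (k : ℝ) ^ s := by
    rw [Fintype.card_fun, Fintype.card_fun]
    simp
  have e4 : Real.exp (-(16 / 5 * (s : ℝ) * (bd Γ (C : Set W) : ℝ) / k)) =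
      ∏ w : W, (Real.exp (-(8 / 5 * ((cr Γ C w : ℝ) / k)))) ^ s := by
    have h : (∑ w : W, (cr Γ C w : ℝ)) = 2 * (bd Γ (C : Set W) : ℝ) := by
      have := sum_cr Γ C
      exact_mod_cast this
    rw [Finset.prod_pow, ← Real.exp_sum, ← Real.exp_nat_mul]
    congr 1
    rw [Finset.sum_neg_distrib, ← Finset.mul_sum, ← Finset.sum_div, h]
    ring
  rw [e2, e3, e4, ← Finset.prod_mul_distrib]
  refine Finset.prod_le_prod (fun w _ => by positivity) fun w _ => ?_
  rw [← mul_pow]
  refine pow_le_pow_left₀ (by positivity) ?_ s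
  have h1 : ((good w).card : ℝ) + (cr Γ C w : ℝ) = k := by
    exact_mod_cast cr_eq Γ C hn w
  have h2 : 5 * (cr Γ C w : ℝ) ≤ 3 * k := by exact_mod_cast cr_le Γ C hC w
  have h3 := exp_le ((cr Γ C w : ℝ) / k) (by positivity) (by
    rw [div_le_iff₀ hk0]; linarith)
  calc Real.exp (-(8 / 5 * ((cr Γ C w : ℝ) / k))) * k ≤ (1 - (cr Γ C w : ℝ) / k) * k :=
        mul_le_mul_of_nonneg_right h3 hk0.le
    _ = (good w).card := by field_simp; linarith

end Pool.Agent.CGP.H97
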